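import Mathlib

set_option autoImplicit false

namespace Pool.Agent.Results.MP_314109_co.Cex

/-- The distance `sqrt (|A \ B|^2 + |B \ A|^2)`. -/
noncomputable def d {X : Type} [DecidableEq X] (A B : Finset X) : ℝ :=
  √(((A \ B).card : ℝ) ^ 2 + ((B \ A).card : ℝ) ^ 2)

/-- Sum of the distances over unordered pairs of members of a family. -/
noncomputable def within {X : Type} [DecidableEq X] {m : ℕ} (A : Fin m → Finset X) : ℝ :=
  ∑ i, ∑ j, if i < j then d (A i) (A j) else 0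

def FA : Fin 4 → Finset (Fin 5) := ![{0, 1}, {0, 1, 4}, {2, 3}, {2, 3, 4}]

def FB : Fin 4 → Finset (Fin 5) := ![{0, 2}, {0, 2, 4}, {1, 3}, {1, 3, 4}]

def q (A B : Finset (Fin 5)) : ℕ := (A \ B).card ^ 2 + (B \ A).card ^ 2

theorem dq (A B : Finset (Fin 5)) : d A B = √(q A B : ℝ) := by
  simp [d, q]

def W : Fin 4 → Fin 4 → ℕ := ![![0, 1, 8, 13], ![1, 0, 13, 8], ![8, 13, 0, 1], ![13, 8, 1, 0]]

def C : Fin 4 → Fin 4 → ℕ := ![![2, 5, 2, 5], ![5, 2, 5, 2], ![2, 5, 2, 5], ![5, 2, 5, 2]]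

theorem hA : ∀ i j, q (FA i) (FA j) = W i j := by decide +kernel

theorem hB : ∀ i j, q (FB i) (FB j) = W i j := by decide +kernel

theorem hC : ∀ i j, q (FA i) (FB j) = C i j := by decide +kernel

theorem result : ¬ ∀ (X : Type) [Fintype X] [DecidableEq X] (m : ℕ), 1 ≤ m →
    ∀ A B : Fin m → Finset X, Function.Injective A → Function.Injective B →
      within A + within B ≤ ∑ i, ∑ j, d (A i) (B j) := by
  intro h
  have := h (Fin 5) 4 (by norm_num) FA FB (by decide +kernel) (by decide +kernel)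
  simp only [within, dq, hA, hB, hC] at this
  simp [Fin.sum_univ_four, W, C] at this
  have h8 : (2.828 : ℝ) ≤ √8 := Real.le_sqrt_of_sq_le (by norm_num)
  have h13 : (3.6 : ℝ) ≤ √13 := Real.le_sqrt_of_sq_le (by norm_num)
  have h2 : √2 ≤ (1.415 : ℝ) := Real.sqrt_le_iff.2 ⟨by norm_num, by norm_num⟩
  have h5 : √5 ≤ (2.24 : ℝ) := Real.sqrt_le_iff.2 ⟨by norm_num, by norm_num⟩
  linarith

end Pool.Agent.Results.MP_314109_co.Cex
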